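import Mathlib

namespace Pool.Agent.Results.MP_10a600_co.Complete

variable {V : Type}

/-- The open `M`-distance pattern of `u`. -/
def pattern (G : SimpleGraph V) (M : Set V) (u : V) : Set ℕ :=
  {k | ∃ v ∈ M, v ≠ u ∧ G.dist u v = k}

/-- `M` is an ODPU-set: nonempty, and all vertices have the same open pattern. -/
def IsODPU (G : SimpleGraph V) (M : Set V) : Prop :=
  M.Nonempty ∧ ∀ u w, pattern G M u = pattern G M w

/-- `S` is a total dominating set. -/
def IsTotalDom (G : SimpleGraph V) (S : Set V) : Prop := ∀ v, ∃ w ∈ S, G.Adj v w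

theorem result [Finite V] (G : SimpleGraph V) (hG : G.Connected) :
    (∀ S, IsTotalDom G S → IsODPU G S) ↔ G = ⊤ := by
  constructor
  · intro h
    by_contra hne
    obtain ⟨u, x, hux, hn⟩ : ∃ u x, u ≠ x ∧ ¬ G.Adj u x := by
      by_contra hc
      push Not at hc
      apply hne
      ext a b
      exact ⟨fun h => h.ne, hc a b⟩
    haveI : Nonempty V := ⟨u⟩
    obtain ⟨w, hw⟩ := Finite.exists_max (fun v => G.dist u v)
    have h2 : 2 ≤ G.dist u w := by
      have a := hG.pos_dist_of_ne hux
      have b : G.dist u x ≠ 1 := fun e => hn (SimpleGraph.dist_eq_one_iff_adj.1 e)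
      have := hw x
      omega
    have step : ∀ v, v ≠ u → ∃ y, G.Adj v y ∧ G.dist u y < G.dist u v := by
      intro v hv
      obtain ⟨p, hp⟩ := hG.exists_walk_length_eq_dist v u
      cases p with
      | nil => exact absurd rfl hv
      | cons ha q =>
        refine ⟨_, ha, ?_⟩
        have := SimpleGraph.dist_le q
        rw [SimpleGraph.Walk.length_cons] at hp
        rw [SimpleGraph.dist_comm, SimpleGraph.dist_comm (u := u)]
        omega
    have td : IsTotalDom G {v | G.dist u v < G.dist u w} := by
      intro v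
      by_cases hv : v = u
      · subst hv
        obtain ⟨p⟩ := hG.preconnected v x
        cases p with
        | nil => exact absurd rfl hux
        | cons ha q =>
          refine ⟨_, ?_, ha⟩
          have := SimpleGraph.dist_eq_one_iff_adj.2 ha
          simp only [Set.mem_setOf_eq]; omega
      · obtain ⟨y, hy, hl⟩ := step v hv
        exact ⟨y, hl.trans_le (hw v), hy⟩
    have e := (h _ td).2 w u
    have : G.dist u w ∈ pattern G {v | G.dist u v < G.dist u w} w := by
      refine ⟨u, by simp only [Set.mem_setOf_eq, SimpleGraph.dist_self]; omega, ?_,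
        SimpleGraph.dist_comm⟩
      rintro rfl
      simp at h2
    rw [e] at this
    obtain ⟨v, hv, -, e2⟩ := this
    simp only [Set.mem_setOf_eq] at hv
    omega
  · rintro rfl S hS
    obtain ⟨v⟩ := hG.nonempty
    obtain ⟨w, hw, -⟩ := hS v
    have : ∀ u, pattern ⊤ S u = {1} := by
      intro u
      ext k
      constructor
      · rintro ⟨x, -, hx, rfl⟩
        exact SimpleGraph.dist_eq_one_iff_adj.2 hx.symm
      · rintro rfl
        obtain ⟨x, hx, ha⟩ := hS u
        exact ⟨x, hx, ha.ne.symm, SimpleGraph.dist_eq_one_iff_adj.2 ha⟩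
    exact ⟨⟨w, hw⟩, fun a b => by rw [this, this]⟩

end Pool.Agent.Results.MP_10a600_co.Complete
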